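import Pool.Agent.D0H11.TW.Stm

/-! # The Fourier multiplier of the major arcs -/

set_option autoImplicit false

namespace Pool.Agent.D0H98.TW

open Pool.Agent.D0H11.TW Finset MeasureTheory

/-- the reduced fractions with denominator `≤ P` -/
def idx (P : ℕ) : Finset (Σ _ : ℕ, ℕ) :=
  (Icc 1 P).sigma fun q => (range q).filter (fun a => Nat.Coprime a q)

/-- the shifts -/
def ks : Finset ℤ := {-1, 0, 1}

/-- the smooth indicator function of the major arcs -/
noncomputable def Ph (P : ℕ) (η θ : ℝ) : ℝ :=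
  ∑ z ∈ idx P, ∑ k ∈ ks, tr η (θ - (z.2 : ℝ) / (z.1 : ℝ) - k)

lemma tr_cont (η : ℝ) : Continuous (tr η) := by
  unfold tr
  fun_prop

lemma tr_nonneg (η β : ℝ) : 0 ≤ tr η β := le_max_left _ _

lemma tr_le_one (η β : ℝ) : tr η β ≤ 1 := max_le zero_le_one (min_le_left _ _)

lemma tr_zero {η β : ℝ} (hη : 0 < η) (h : 2 * η ≤ |β|) : tr η β = 0 := by
  unfold tr
  apply max_eq_left
  refine (min_le_right _ _).trans ?_
  rw [sub_nonpos, le_div_iff₀ hη]
  exact h

lemma tr_one {η β : ℝ} (hη : 0 < η) (h : |β| ≤ η) : tr η β = 1 := by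
  unfold tr
  have : 1 ≤ 2 - |β| / η := by
    have : |β| / η ≤ 1 := by rw [div_le_one hη]; exact h
    linarith
  rw [min_eq_left this, max_eq_right zero_le_one]

lemma tr_neg (η β : ℝ) : tr η (-β) = tr η β := by
  unfold tr
  rw [abs_neg]

lemma Ph_cont (P : ℕ) (η : ℝ) : Continuous (Ph P η) := by
  unfold Ph
  refine continuous_finsetSum _ fun z _ => continuous_finsetSum _ fun k _ => ?_
  exact (tr_cont η).comp (by fun_prop)

lemma Ph_nonneg (P : ℕ) (η θ : ℝ) : 0 ≤ Ph P η θ :=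
  sum_nonneg fun _ _ => sum_nonneg fun _ _ => tr_nonneg _ _

/-- the arcs are disjoint -/
lemma uniq {P : ℕ} {η θ : ℝ} (hη : 0 < η) (hP : 4 * η * (P : ℝ) ^ 2 < 1)
    {q q' a a' : ℕ} {k k' : ℤ} (hq : 1 ≤ q ∧ q ≤ P) (hq' : 1 ≤ q' ∧ q' ≤ P)
    (ha : a < q ∧ Nat.Coprime a q) (ha' : a' < q' ∧ Nat.Coprime a' q')
    (h : |θ - (a : ℝ) / (q : ℝ) - k| < 2 * η) (h' : |θ - (a' : ℝ) / (q' : ℝ) - k'| < 2 * η) :
    q = q' ∧ a = a' ∧ k = k' := by
  have hq0 : (0 : ℝ) < q := by exact_mod_cast hq.1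
  have hq0' : (0 : ℝ) < q' := by exact_mod_cast hq'.1
  have h1 : |((a : ℝ) / q + k) - ((a' : ℝ) / q' + k')| < 4 * η := by
    have := abs_sub (θ - (a' : ℝ) / (q' : ℝ) - k') (θ - (a : ℝ) / (q : ℝ) - k)
    calc |((a : ℝ) / q + k) - ((a' : ℝ) / q' + k')| =
        |(θ - (a' : ℝ) / (q' : ℝ) - k') - (θ - (a : ℝ) / (q : ℝ) - k)| := by congr 1; ring
      _ ≤ |θ - (a' : ℝ) / (q' : ℝ) - k'| + |θ - (a : ℝ) / (q : ℝ) - k| := abs_sub _ _
      _ < _ := by linarith
  have h2 : ((a : ℤ) + k * q) * q' - ((a' : ℤ) + k' * q') * q = 0 := by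
    by_contra hne
    have h3 : (1 : ℝ) ≤ |((((a : ℤ) + k * q) * q' - ((a' : ℤ) + k' * q') * q : ℤ) : ℝ)| := by
      rw [← Int.cast_abs]
      exact_mod_cast Int.one_le_abs hne
    have h4 : ((((a : ℤ) + k * q) * q' - ((a' : ℤ) + k' * q') * q : ℤ) : ℝ) =
        (((a : ℝ) / q + k) - ((a' : ℝ) / q' + k')) * (q * q') := by
      push_cast
      field_simp
    rw [h4, abs_mul, abs_of_pos (mul_pos hq0 hq0')] at h3
    have h5 : (q : ℝ) * q' ≤ (P : ℝ) ^ 2 := by
      rw [sq]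
      have e1 : (q : ℝ) ≤ P := by exact_mod_cast hq.2
      have e2 : (q' : ℝ) ≤ P := by exact_mod_cast hq'.2
      gcongr
    have h6 : |((a : ℝ) / q + k) - ((a' : ℝ) / q' + k')| * ((q : ℝ) * q') ≤ 4 * η * (P : ℝ) ^ 2 := by
      exact mul_le_mul h1.le h5 (by positivity) (by positivity)
    linarith
  have h3 : ((a : ℤ) + k * q) * q' = ((a' : ℤ) + k' * q') * q := by linarith
  have c1 : IsCoprime ((a : ℤ) + k * q) (q : ℤ) := by
    have : IsCoprime (a : ℤ) (q : ℤ) := Nat.isCoprime_iff_coprime.2 ha.2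
    exact (IsCoprime.add_mul_right_left_iff).2 this
  have c2 : IsCoprime ((a' : ℤ) + k' * q') (q' : ℤ) := by
    have : IsCoprime (a' : ℤ) (q' : ℤ) := Nat.isCoprime_iff_coprime.2 ha'.2
    exact (IsCoprime.add_mul_right_left_iff).2 this
  have d1 : (q : ℤ) ∣ q' := by
    have : (q : ℤ) ∣ ((a : ℤ) + k * q) * q' := by rw [h3]; exact dvd_mul_left _ _
    exact c1.symm.dvd_of_dvd_mul_left this
  have d2 : (q' : ℤ) ∣ q := by
    have : (q' : ℤ) ∣ ((a' : ℤ) + k' * q') * q := by rw [← h3]; exact dvd_mul_left _ _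
    exact c2.symm.dvd_of_dvd_mul_left this
  have e : q = q' := Nat.dvd_antisymm (Int.natCast_dvd_natCast.1 d1) (Int.natCast_dvd_natCast.1 d2)
  subst e
  have hqz : (q : ℤ) ≠ 0 := by
    have := hq.1
    omega
  have h4 : (a : ℤ) + k * q = (a' : ℤ) + k' * q := mul_right_cancel₀ hqz h3
  have h5 : (a : ℤ) = a' := by
    have e1 : ((a : ℤ) + k * q) % q = a := by
      rw [Int.add_mul_emod_self_right]
      exact Int.emod_eq_of_lt (by omega) (by omega)
    have e2 : ((a' : ℤ) + k' * q) % q = a' := by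
      rw [Int.add_mul_emod_self_right]
      exact Int.emod_eq_of_lt (by omega) (by omega)
    rw [← e1, ← e2, h4]
  refine ⟨rfl, by exact_mod_cast h5, ?_⟩
  rw [h5] at h4
  exact mul_right_cancel₀ hqz (add_left_cancel h4)

lemma Ph_le_one {P : ℕ} {η : ℝ} (hη : 0 < η) (hP : 4 * η * (P : ℝ) ^ 2 < 1) (θ : ℝ) :
    Ph P η θ ≤ 1 := by
  unfold Ph
  rw [← sum_product']
  by_cases h : ∃ z ∈ idx P ×ˢ ks, tr η (θ - (z.1.2 : ℝ) / (z.1.1 : ℝ) - z.2) ≠ 0
  · obtain ⟨z, hz, hne⟩ := h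
    rw [sum_eq_single_of_mem z hz]
    · exact tr_le_one _ _
    · intro y hy hyz
      by_contra hne'
      have h1 : |θ - (z.1.2 : ℝ) / (z.1.1 : ℝ) - z.2| < 2 * η := by
        by_contra hc
        exact hne (tr_zero hη (not_lt.1 hc))
      have h2 : |θ - (y.1.2 : ℝ) / (y.1.1 : ℝ) - y.2| < 2 * η := by
        by_contra hc
        exact hne' (tr_zero hη (not_lt.1 hc))
      rw [mem_product] at hz hy
      unfold idx at hz hy
      rw [mem_sigma, mem_Icc, mem_filter, mem_range] at hz hy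
      obtain ⟨e1, e2, e3⟩ := uniq hη hP hz.1.1 hy.1.1 hz.1.2 hy.1.2 h1 h2
      apply hyz
      obtain ⟨⟨q, a⟩, k⟩ := z
      obtain ⟨⟨q', a'⟩, k'⟩ := y
      simp only at e1 e2 e3
      subst e1 e2 e3
      rfl
  · push Not at h
    rw [sum_eq_zero h]
    exact zero_le_one

/-- a reduced fraction near `[0, 1]` -/
lemma frac_near {η : ℝ} (hη4 : 4 * η < 1) {θ : ℝ} (h0 : 0 ≤ θ) (h1 : θ ≤ 1) {q : ℕ} {b : ℤ}
    (hq : 1 ≤ q) (hb : IsCoprime b (q : ℤ)) (hθ : |θ - b / (q : ℝ)| ≤ η) :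
    ∃ (a : ℕ) (k : ℤ), a < q ∧ Nat.Coprime a q ∧ k ∈ ks ∧ (b : ℝ) / q = (a : ℝ) / q + k := by
  have hq0 : (0 : ℝ) < q := by exact_mod_cast hq
  have hqz : (0 : ℤ) < q := by exact_mod_cast hq
  have hdiv := Int.emod_add_mul_ediv b q
  obtain ⟨k, hk⟩ : ∃ k, k = b / (q : ℤ) := ⟨_, rfl⟩
  obtain ⟨r, hr⟩ : ∃ r, r = b % (q : ℤ) := ⟨_, rfl⟩
  rw [← hk, ← hr] at hdiv
  have hr0 : 0 ≤ r := by rw [hr]; exact Int.emod_nonneg _ hqz.ne'
  have hr1 : r < q := by rw [hr]; exact Int.emod_lt_of_pos _ hqz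
  clear hk hr
  obtain ⟨a, rfl⟩ := Int.eq_ofNat_of_zero_le hr0
  have haq : a < q := by exact_mod_cast hr1
  have hbr : (b : ℝ) / q = (a : ℝ) / q + k := by
    have : (b : ℝ) = a + q * k := by
      rw [← hdiv]; push_cast; ring
    rw [this]
    field_simp
  have hcop : Nat.Coprime a q := by
    rw [← Nat.isCoprime_iff_coprime]
    have : (a : ℤ) = b + (-k) * q := by linarith
    rw [this]
    exact (IsCoprime.add_mul_right_left_iff).2 hb
  have ha0 : (0 : ℝ) ≤ (a : ℝ) / q := by positivity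
  have ha1 : (a : ℝ) / q < 1 := by rw [div_lt_one hq0]; exact_mod_cast haq
  have habs := abs_le.1 hθ
  rw [hbr] at habs
  have hk1 : -1 ≤ k := by
    by_contra hc
    have h2 : k ≤ -2 := by omega
    have h3 : (k : ℝ) ≤ -2 := by exact_mod_cast h2
    linarith only [habs.1, habs.2, h3, ha1, ha0, h0, h1, hη4]
  have hk2 : k ≤ 1 := by
    by_contra hc
    have h2 : 2 ≤ k := by omega
    have h3 : (2 : ℝ) ≤ k := by exact_mod_cast h2
    linarith only [habs.1, habs.2, h3, ha1, ha0, h0, h1, hη4]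
  refine ⟨a, k, haq, hcop, ?_, hbr⟩
  unfold ks
  simp only [mem_insert, mem_singleton]
  omega

lemma Ph_ge {P : ℕ} {η θ : ℝ} (z : Σ _ : ℕ, ℕ) (hz : z ∈ idx P) (k : ℤ) (hk : k ∈ ks) :
    tr η (θ - (z.2 : ℝ) / (z.1 : ℝ) - k) ≤ Ph P η θ := by
  unfold Ph
  have h1 : tr η (θ - (z.2 : ℝ) / (z.1 : ℝ) - k) ≤
      ∑ k ∈ ks, tr η (θ - (z.2 : ℝ) / (z.1 : ℝ) - k) :=
    single_le_sum (f := fun k : ℤ => tr η (θ - (z.2 : ℝ) / (z.1 : ℝ) - k))
      (fun _ _ => tr_nonneg _ _) hk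
  have h2 := single_le_sum
    (f := fun z : (Σ _ : ℕ, ℕ) => ∑ k ∈ ks, tr η (θ - (z.2 : ℝ) / (z.1 : ℝ) - k))
    (fun _ _ => sum_nonneg fun _ _ => tr_nonneg _ _) hz
  exact h1.trans h2

lemma Ph_maj {P : ℕ} {η : ℝ} (hη : 0 < η) (hP1 : 1 ≤ P) (hP : 4 * η * (P : ℝ) ^ 2 < 1) {θ : ℝ}
    (h0 : 0 ≤ θ) (h1 : θ ≤ 1) (h : θ ∈ Maj P η) : Ph P η θ = 1 := by
  refine le_antisymm (Ph_le_one hη hP θ) ?_
  obtain ⟨q, hq, b, hb, hθ⟩ := h
  have hη4 : 4 * η < 1 := by
    have h3 : (1 : ℝ) ≤ P := by exact_mod_cast hP1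
    have h4 : (1 : ℝ) ≤ (P : ℝ) ^ 2 := one_le_pow₀ h3
    have h5 : 4 * η * 1 ≤ 4 * η * (P : ℝ) ^ 2 := mul_le_mul_of_nonneg_left h4 (by positivity)
    linarith
  obtain ⟨a, k, haq, hcop, hk, hbr⟩ := frac_near hη4 h0 h1 (mem_Icc.1 hq).1 hb hθ
  have hmem : (⟨q, a⟩ : Σ _ : ℕ, ℕ) ∈ idx P := by
    unfold idx
    rw [mem_sigma, mem_filter, mem_range]
    exact ⟨hq, haq, hcop⟩
  have e : tr η (θ - (a : ℝ) / (q : ℝ) - k) = 1 := by
    apply tr_one hη
    rw [hbr] at hθ
    rwa [sub_sub]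
  have h2 := Ph_ge (P := P) (η := η) (θ := θ) ⟨q, a⟩ hmem k hk
  simp only at h2
  rw [e] at h2
  exact h2

/-- one reduced fraction -/
lemma one_arc {η : ℝ} (hη : 0 < η) (hη4 : 4 * η < 1) {x0 : ℝ} (hx0 : 0 ≤ x0) (hx1 : x0 < 1) (n : ℤ) :
    ∑ k ∈ ks, ∫ θ in (0 : ℝ)..1, tr η (θ - x0 - k) * Real.cos (2 * Real.pi * n * θ) =
      Real.cos (2 * Real.pi * n * x0) * KK η n := by
  set g : ℝ → ℝ := fun θ => tr η (θ - x0) * Real.cos (2 * Real.pi * n * θ) with hg
  have hgc : Continuous g := by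
    refine ((tr_cont η).comp (by fun_prop)).mul (by fun_prop)
  have hii : ∀ a b : ℝ, IntervalIntegrable g volume a b := fun a b => hgc.intervalIntegrable a b
  have h1 : ∀ k : ℤ, ∫ θ in (0 : ℝ)..1, tr η (θ - x0 - k) * Real.cos (2 * Real.pi * n * θ) =
      ∫ θ in (-(k : ℝ))..(1 - k), g θ := by
    intro k
    have e : (fun θ : ℝ => tr η (θ - x0 - k) * Real.cos (2 * Real.pi * n * θ)) =
        fun θ => g (θ - k) := by
      funext θ
      simp only [hg]
      congr 1
      · congr 1; ring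
      · rw [show 2 * Real.pi * n * (θ - k) = 2 * Real.pi * n * θ - ((n * k : ℤ) : ℝ) * (2 * Real.pi) by
          push_cast; ring, Real.cos_sub_int_mul_two_pi]
    rw [show (∫ θ in (0 : ℝ)..1, tr η (θ - x0 - k) * Real.cos (2 * Real.pi * n * θ)) =
      ∫ θ in (0 : ℝ)..1, (fun θ : ℝ => tr η (θ - x0 - k) * Real.cos (2 * Real.pi * n * θ)) θ from rfl,
      e]
    rw [intervalIntegral.integral_comp_sub_right g (k : ℝ), zero_sub]
  have h2 : ∑ k ∈ ks, ∫ θ in (0 : ℝ)..1, tr η (θ - x0 - k) * Real.cos (2 * Real.pi * n * θ) =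
      ∫ θ in (-1 : ℝ)..2, g θ := by
    unfold ks
    rw [sum_insert (by decide), sum_insert (by decide), sum_singleton, h1, h1, h1]
    have e1 := intervalIntegral.integral_add_adjacent_intervals (hii (-1) 0) (hii 0 1)
    have e2 := intervalIntegral.integral_add_adjacent_intervals (hii (-1) 1) (hii 1 2)
    rw [← e2, ← e1]
    norm_num
    ring
  rw [h2]
  have h3 : ∫ θ in (-1 : ℝ)..2, g θ = ∫ β in (-1 - x0)..(2 - x0), g (β + x0) := by
    rw [intervalIntegral.integral_comp_add_right g x0]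
    congr 1 <;> ring
  rw [h3]
  set f : ℝ → ℝ := fun β => g (β + x0) with hf
  have hfc : Continuous f := hgc.comp (by fun_prop)
  have hfi : ∀ a b : ℝ, IntervalIntegrable f volume a b := fun a b => hfc.intervalIntegrable a b
  have f0 : ∀ β, 2 * η ≤ |β| → f β = 0 := by
    intro β hβ
    simp only [hf, hg, add_sub_cancel_right]
    rw [tr_zero hη hβ, zero_mul]
  have z1 : ∫ β in (-1 - x0)..(-(2 * η)), f β = 0 := by
    rw [intervalIntegral.integral_congr (g := fun _ => (0 : ℝ))]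
    · simp
    · intro β hβ
      rw [Set.uIcc_of_le (by linarith)] at hβ
      refine f0 β ?_
      rw [abs_of_nonpos (by linarith [hβ.2])]
      linarith [hβ.2]
  have z2 : ∫ β in (2 * η)..(2 - x0), f β = 0 := by
    rw [intervalIntegral.integral_congr (g := fun _ => (0 : ℝ))]
    · simp
    · intro β hβ
      rw [Set.uIcc_of_le (by linarith)] at hβ
      refine f0 β ?_
      rw [abs_of_nonneg (by linarith [hβ.1])]
      linarith [hβ.1]
  have e1 := intervalIntegral.integral_add_adjacent_intervals (hfi (-1 - x0) (-(2 * η)))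
    (hfi (-(2 * η)) (2 * η))
  have e2 := intervalIntegral.integral_add_adjacent_intervals (hfi (-1 - x0) (2 * η))
    (hfi (2 * η) (2 - x0))
  rw [← e2, ← e1, z1, z2, zero_add, add_zero]
  -- the odd part vanishes
  have odd : ∫ β in (-(2 * η))..(2 * η), tr η β * Real.sin (2 * Real.pi * β * n) = 0 := by
    have h := intervalIntegral.integral_comp_neg (a := -(2 * η)) (b := 2 * η)
      (fun β => tr η β * Real.sin (2 * Real.pi * β * n))
    rw [neg_neg] at h
    have e : (fun β : ℝ => tr η (-β) * Real.sin (2 * Real.pi * (-β) * n)) =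
        fun β => -(tr η β * Real.sin (2 * Real.pi * β * n)) := by
      funext β
      rw [tr_neg, show 2 * Real.pi * (-β) * n = -(2 * Real.pi * β * n) by ring, Real.sin_neg]
      ring
    have e3 : (∫ β in (-(2 * η))..(2 * η), tr η (-β) * Real.sin (2 * Real.pi * (-β) * n)) =
        -∫ β in (-(2 * η))..(2 * η), tr η β * Real.sin (2 * Real.pi * β * n) := by
      rw [← intervalIntegral.integral_neg]
      exact congrArg (fun F : ℝ → ℝ => ∫ β in (-(2 * η))..(2 * η), F β) e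
    rw [e3] at h
    linarith
  have split : f = fun β => Real.cos (2 * Real.pi * n * x0) * (tr η β * Real.cos (2 * Real.pi * β * n))
      - Real.sin (2 * Real.pi * n * x0) * (tr η β * Real.sin (2 * Real.pi * β * n)) := by
    funext β
    simp only [hf, hg, add_sub_cancel_right]
    rw [show 2 * Real.pi * n * (β + x0) = 2 * Real.pi * β * n + 2 * Real.pi * n * x0 by ring,
      Real.cos_add]
    ring
  have i1 : IntervalIntegrable (fun β => Real.cos (2 * Real.pi * n * x0) *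
      (tr η β * Real.cos (2 * Real.pi * β * n))) volume (-(2 * η)) (2 * η) := by
    refine Continuous.intervalIntegrable ?_ _ _
    exact continuous_const.mul ((tr_cont η).mul (by fun_prop))
  have i2 : IntervalIntegrable (fun β => Real.sin (2 * Real.pi * n * x0) *
      (tr η β * Real.sin (2 * Real.pi * β * n))) volume (-(2 * η)) (2 * η) := by
    refine Continuous.intervalIntegrable ?_ _ _
    exact continuous_const.mul ((tr_cont η).mul (by fun_prop))
  rw [split, intervalIntegral.integral_sub i1 i2, intervalIntegral.integral_const_mul,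
    intervalIntegral.integral_const_mul, odd, mul_zero, sub_zero]
  rfl

lemma Ph_coef {P : ℕ} {η : ℝ} (hη : 0 < η) (hη4 : 4 * η < 1) (n : ℤ) :
    ∫ θ in (0 : ℝ)..1, Ph P η θ * Real.cos (2 * Real.pi * n * θ) =
      KK η n * ∑ q ∈ Icc 1 P, rs q n := by
  have hi : ∀ (z : Σ _ : ℕ, ℕ) (k : ℤ), IntervalIntegrable (fun θ : ℝ =>
      tr η (θ - (z.2 : ℝ) / (z.1 : ℝ) - k) * Real.cos (2 * Real.pi * n * θ)) volume 0 1 := by
    intro z k
    refine Continuous.intervalIntegrable ?_ _ _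
    exact ((tr_cont η).comp (by fun_prop)).mul (by fun_prop)
  unfold Ph
  simp_rw [sum_mul]
  rw [intervalIntegral.integral_finsetSum (fun z _ => by
    refine Continuous.intervalIntegrable ?_ _ _
    exact continuous_finsetSum _ fun k _ => ((tr_cont η).comp (by fun_prop)).mul (by fun_prop))]
  have h1 : ∀ z ∈ idx P, ∫ θ in (0 : ℝ)..1, ∑ k ∈ ks, tr η (θ - (z.2 : ℝ) / (z.1 : ℝ) - k) *
      Real.cos (2 * Real.pi * n * θ) =
      Real.cos (2 * Real.pi * n * ((z.2 : ℝ) / (z.1 : ℝ))) * KK η n := by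
    intro z hz
    rw [intervalIntegral.integral_finsetSum (fun k _ => hi z k)]
    unfold idx at hz
    rw [mem_sigma, mem_Icc, mem_filter, mem_range] at hz
    have hq0 : (0 : ℝ) < (z.1 : ℝ) := by exact_mod_cast hz.1.1
    exact one_arc hη hη4 (by positivity) (by rw [div_lt_one hq0]; exact_mod_cast hz.2.1) n
  rw [sum_congr rfl h1, ← sum_mul, mul_comm]
  congr 1
  unfold idx rs
  rw [sum_sigma]
  refine sum_congr rfl fun q _ => sum_congr rfl fun a _ => ?_
  congr 1
  ring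

lemma cos_int (n : ℤ) : ∫ θ in (0 : ℝ)..1, Real.cos (2 * Real.pi * n * θ) = if n = 0 then 1 else 0 := by
  split_ifs with h
  · rw [h]; simp
  · have hn : (2 * Real.pi * n : ℝ) ≠ 0 := by
      have : (n : ℝ) ≠ 0 := by exact_mod_cast h
      positivity
    rw [intervalIntegral.integral_comp_mul_left (fun x => Real.cos x) hn, integral_cos]
    have : Real.sin (2 * Real.pi * n * 1) = 0 := by
      rw [mul_one, show (2 * Real.pi * n : ℝ) = (n : ℝ) * (2 * Real.pi) by ring]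
      have := Real.sin_int_mul_pi (2 * n)
      push_cast at this
      rw [← this]; congr 1; ring
    rw [this]
    simp

theorem arc : S_ARC := by
  intro ι s val w P η hP1 hη hP M
  have hη4 : 4 * η < 1 := by
    have : (1 : ℝ) ≤ (P : ℝ) ^ 2 := by
      have : (1 : ℝ) ≤ P := by exact_mod_cast hP1
      nlinarith
    nlinarith
  set b : ℤ → ℝ := fun m => ∑ i ∈ s.filter (fun i => val i = m), w i -
      ∑ i ∈ s, w i * KK η (m - val i) * ∑ q ∈ Icc 1 P, rs q (m - val i) with hb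
  set A : ℝ → ℝ := fun θ => ∑ i ∈ s, w i * Real.cos (2 * Real.pi * val i * θ) with hA
  set B : ℝ → ℝ := fun θ => ∑ i ∈ s, w i * Real.sin (2 * Real.pi * val i * θ) with hB
  set C : ℝ → ℝ := fun θ => ∑ m ∈ M, b m * Real.cos (2 * Real.pi * m * θ) with hC
  set D : ℝ → ℝ := fun θ => ∑ m ∈ M, b m * Real.sin (2 * Real.pi * m * θ) with hD
  have cA : Continuous A := continuous_finsetSum _ fun i _ => by fun_prop
  have cB : Continuous B := continuous_finsetSum _ fun i _ => by fun_prop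
  have cC : Continuous C := continuous_finsetSum _ fun i _ => by fun_prop
  have cD : Continuous D := continuous_finsetSum _ fun i _ => by fun_prop
  have cP := Ph_cont P η
  have hF : ∀ θ : ℝ, ‖∑ i ∈ s, (w i : ℂ) * ee (θ * val i)‖ ^ 2 = A θ ^ 2 + B θ ^ 2 := by
    intro θ
    have e : ∑ i ∈ s, (w i : ℂ) * ee (θ * val i) = (A θ : ℂ) + (B θ : ℂ) * Complex.I := by
      simp only [hA, hB]
      push_cast
      rw [sum_mul, ← sum_add_distrib]
      refine sum_congr rfl fun i _ => ?_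
      unfold ee
      rw [show (2 * (Real.pi : ℂ) * Complex.I * ((θ * val i : ℝ) : ℂ)) =
        ((2 * Real.pi * val i * θ : ℝ) : ℂ) * Complex.I by push_cast; ring, Complex.exp_mul_I]
      push_cast
      ring
    rw [e, Complex.sq_norm, Complex.normSq_add_mul_I]
  -- the mean value of the product
  have hL : ∀ n : ℤ, ∫ θ in (0 : ℝ)..1, (1 - Ph P η θ) * Real.cos (2 * Real.pi * n * θ) =
      (if n = 0 then 1 else 0) - KK η n * ∑ q ∈ Icc 1 P, rs q n := by
    intro n
    have e : (fun θ : ℝ => (1 - Ph P η θ) * Real.cos (2 * Real.pi * n * θ)) = fun θ =>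
        Real.cos (2 * Real.pi * n * θ) - Ph P η θ * Real.cos (2 * Real.pi * n * θ) := by
      funext θ; ring
    have c1 : Continuous (fun θ : ℝ => Real.cos (2 * Real.pi * n * θ)) := by fun_prop
    have c2 : Continuous (fun θ : ℝ => Ph P η θ * Real.cos (2 * Real.pi * n * θ)) := by fun_prop
    rw [e, intervalIntegral.integral_sub (c1.intervalIntegrable _ _) (c2.intervalIntegrable _ _),
      cos_int, Ph_coef hη hη4]
  have hprod : ∀ θ, A θ * C θ + B θ * D θ = ∑ m ∈ M, ∑ i ∈ s, b m * w i *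
      Real.cos (2 * Real.pi * ((m - val i : ℤ) : ℝ) * θ) := by
    intro θ
    simp only [hA, hB, hC, hD]
    rw [sum_mul_sum, sum_mul_sum, sum_comm, sum_comm (s := s) (t := M), ← sum_add_distrib]
    refine sum_congr rfl fun m _ => ?_
    rw [← sum_add_distrib]
    refine sum_congr rfl fun i _ => ?_
    push_cast
    rw [show 2 * Real.pi * ((m : ℝ) - val i) * θ = 2 * Real.pi * m * θ - 2 * Real.pi * val i * θ by
      ring, Real.cos_sub]
    ring
  have hCD : ∀ θ, C θ ^ 2 + D θ ^ 2 = ∑ m ∈ M, ∑ m' ∈ M, b m * b m' *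
      Real.cos (2 * Real.pi * ((m - m' : ℤ) : ℝ) * θ) := by
    intro θ
    simp only [hC, hD]
    rw [sq, sq, sum_mul_sum, sum_mul_sum, ← sum_add_distrib]
    refine sum_congr rfl fun m _ => ?_
    rw [← sum_add_distrib]
    refine sum_congr rfl fun m' _ => ?_
    push_cast
    rw [show 2 * Real.pi * ((m : ℝ) - m') * θ = 2 * Real.pi * m * θ - 2 * Real.pi * m' * θ by
      ring, Real.cos_sub]
    ring
  have I1 : ∫ θ in (0 : ℝ)..1, (C θ ^ 2 + D θ ^ 2) = ∑ m ∈ M, b m ^ 2 := by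
    simp_rw [hCD]
    rw [intervalIntegral.integral_finsetSum (fun m _ => (continuous_finsetSum _ fun m' _ => by
      fun_prop).intervalIntegrable _ _)]
    refine sum_congr rfl fun m hm => ?_
    rw [intervalIntegral.integral_finsetSum (fun m' _ => (by fun_prop : Continuous (fun θ : ℝ =>
      b m * b m' * Real.cos (2 * Real.pi * ((m - m' : ℤ) : ℝ) * θ))).intervalIntegrable _ _)]
    simp_rw [intervalIntegral.integral_const_mul, cos_int]
    rw [sum_eq_single_of_mem m hm]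
    · rw [if_pos (sub_self m)]; ring
    · intro m' _ hne
      rw [if_neg (by intro h; exact hne (by linarith)), mul_zero]
  have I2 : ∫ θ in (0 : ℝ)..1, (1 - Ph P η θ) * (A θ * C θ + B θ * D θ) = ∑ m ∈ M, b m ^ 2 := by
    have e : (fun θ : ℝ => (1 - Ph P η θ) * (A θ * C θ + B θ * D θ)) = fun θ =>
        ∑ m ∈ M, ∑ i ∈ s, b m * w i * ((1 - Ph P η θ) *
          Real.cos (2 * Real.pi * ((m - val i : ℤ) : ℝ) * θ)) := by
      funext θ
      rw [hprod, mul_sum]
      refine sum_congr rfl fun m _ => ?_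
      rw [mul_sum]
      exact sum_congr rfl fun i _ => by ring
    have c1 : ∀ (m : ℤ) (i : ι), Continuous (fun θ : ℝ => b m * w i * ((1 - Ph P η θ) *
          Real.cos (2 * Real.pi * ((m - val i : ℤ) : ℝ) * θ))) := fun m i => by fun_prop
    have c2 : ∀ (m : ℤ), Continuous (fun θ : ℝ => ∑ i ∈ s, b m * w i * ((1 - Ph P η θ) *
          Real.cos (2 * Real.pi * ((m - val i : ℤ) : ℝ) * θ))) :=
      fun m => continuous_finsetSum _ fun i _ => c1 m i
    rw [e, intervalIntegral.integral_finsetSum (fun m _ => (c2 m).intervalIntegrable _ _)]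
    refine sum_congr rfl fun m _ => ?_
    rw [intervalIntegral.integral_finsetSum (fun i _ => (c1 m i).intervalIntegrable _ _)]
    simp_rw [intervalIntegral.integral_const_mul, hL]
    have e2 : b m = ∑ i ∈ s, w i * ((if m - val i = 0 then 1 else 0) -
        KK η ((m - val i : ℤ) : ℝ) * ∑ q ∈ Icc 1 P, rs q (m - val i)) := by
      simp only [hb]
      rw [sum_filter, ← sum_sub_distrib]
      refine sum_congr rfl fun i _ => ?_
      have : (m - val i = 0) ↔ (val i = m) := by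
        constructor <;> intro h <;> linarith
      simp only [this]
      push_cast
      split_ifs <;> ring
    calc _ = b m * ∑ i ∈ s, w i * ((if m - val i = 0 then 1 else 0) -
          KK η ((m - val i : ℤ) : ℝ) * ∑ q ∈ Icc 1 P, rs q (m - val i)) := by
          rw [mul_sum]
          exact sum_congr rfl fun i _ => by ring
      _ = b m ^ 2 := by rw [← e2, sq]
  have I3 : ∫ θ in (0 : ℝ)..1, (1 - Ph P η θ) * (A θ * C θ + B θ * D θ) ≤
      ∫ θ in (0 : ℝ)..1, (1 / 2 * ((1 - Ph P η θ) ^ 2 * (A θ ^ 2 + B θ ^ 2)) +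
        1 / 2 * (C θ ^ 2 + D θ ^ 2)) := by
    have c3 : Continuous (fun θ => (1 - Ph P η θ) * (A θ * C θ + B θ * D θ)) := by fun_prop
    have c4 : Continuous (fun θ => 1 / 2 * ((1 - Ph P η θ) ^ 2 * (A θ ^ 2 + B θ ^ 2)) +
        1 / 2 * (C θ ^ 2 + D θ ^ 2)) := by fun_prop
    refine intervalIntegral.integral_mono_on zero_le_one (c3.intervalIntegrable _ _)
      (c4.intervalIntegrable _ _) ?_
    intro θ _
    nlinarith [sq_nonneg ((1 - Ph P η θ) * A θ - C θ), sq_nonneg ((1 - Ph P η θ) * B θ - D θ)]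
  have c5 : Continuous (fun θ => 1 / 2 * ((1 - Ph P η θ) ^ 2 * (A θ ^ 2 + B θ ^ 2))) := by fun_prop
  have c6 : Continuous (fun θ => 1 / 2 * (C θ ^ 2 + D θ ^ 2)) := by fun_prop
  rw [intervalIntegral.integral_add (c5.intervalIntegrable _ _) (c6.intervalIntegrable _ _),
    intervalIntegral.integral_const_mul, intervalIntegral.integral_const_mul, I1, I2] at I3
  have I4 : ∑ m ∈ M, b m ^ 2 ≤ ∫ θ in (0 : ℝ)..1, (1 - Ph P η θ) ^ 2 * (A θ ^ 2 + B θ ^ 2) := by
    linarith
  refine I4.trans ?_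
  rw [intervalIntegral.integral_of_le zero_le_one, ← integral_Icc_eq_integral_Ioc]
  have cAB : Continuous (fun θ => A θ ^ 2 + B θ ^ 2) := (cA.pow 2).add (cB.pow 2)
  have cQ : Continuous (fun θ => (1 - Ph P η θ) ^ 2 * (A θ ^ 2 + B θ ^ 2)) :=
    ((continuous_const.sub cP).pow 2).mul cAB
  rw [setIntegral_eq_of_subset_of_forall_sdiff_eq_zero (s := Set.Icc (0 : ℝ) 1 \ Maj P η)
    measurableSet_Icc Set.sdiff_subset (fun θ hθ => by
      have h1 : θ ∈ Set.Icc (0 : ℝ) 1 := hθ.1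
      have h2 : θ ∈ Maj P η := by
        by_contra h
        exact hθ.2 ⟨h1, h⟩
      rw [Ph_maj hη hP1 hP h1.1 h1.2 h2]
      ring)]
  simp_rw [hF]
  refine setIntegral_mono ?_ ?_ ?_
  · exact (cQ.continuousOn.integrableOn_compact isCompact_Icc).mono_set Set.sdiff_subset
  · exact (cAB.continuousOn.integrableOn_compact isCompact_Icc).mono_set Set.sdiff_subset
  · intro θ
    have h0 := Ph_nonneg P η θ
    have h1 := Ph_le_one hη hP θ
    have h2 : (1 - Ph P η θ) ^ 2 ≤ 1 := by nlinarith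
    have h3 : 0 ≤ A θ ^ 2 + B θ ^ 2 := by positivity
    simp only
    nlinarith

end Pool.Agent.D0H98.TW
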