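import Pool.Agent.D0H11.TW.Stm

/-! # The kernel of the major arcs -/

set_option autoImplicit false

namespace Pool.Agent.D0H98.TW

open Pool.Agent.D0H11.TW Finset MeasureTheory Filter
open scoped FourierTransform

namespace Ker

lemma tr_cont (η : ℝ) : Continuous (tr η) := by
  unfold tr
  fun_prop

lemma tr_nonneg (η β : ℝ) : 0 ≤ tr η β := le_max_left _ _

lemma tr_le_one (η β : ℝ) : tr η β ≤ 1 := max_le zero_le_one (min_le_left _ _)

lemma tr_zero {η β : ℝ} (hη : 0 < η) (h : 2 * η ≤ |β|) : tr η β = 0 := by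
  unfold tr
  apply max_eq_left
  refine (min_le_right _ _).trans ?_
  rw [sub_nonpos, le_div_iff₀ hη]
  exact h

lemma tr_one {η β : ℝ} (hη : 0 < η) (h : |β| ≤ η) : tr η β = 1 := by
  unfold tr
  have : 1 ≤ 2 - |β| / η := by
    have : |β| / η ≤ 1 := by rw [div_le_one hη]; exact h
    linarith
  rw [min_eq_left this, max_eq_right zero_le_one]

lemma tr_mid {η β : ℝ} (hη : 0 < η) (h : η ≤ β) (h2 : β ≤ 2 * η) : tr η β = 2 - β / η := by
  unfold tr
  rw [abs_of_nonneg (by linarith)]
  have h3 : 1 ≤ β / η := by rw [le_div_iff₀ hη]; linarith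
  have h4 : β / η ≤ 2 := by rw [div_le_iff₀ hη]; linarith
  rw [min_eq_right (by linarith), max_eq_right (by linarith)]

lemma tr_neg (η β : ℝ) : tr η (-β) = tr η β := by
  unfold tr
  rw [abs_neg]

lemma fc (η x : ℝ) : Continuous (fun β => tr η β * Real.cos (2 * Real.pi * β * x)) :=
  (tr_cont η).mul (by fun_prop)

lemma KK_abs {η : ℝ} (hη : 0 < η) (x : ℝ) : |KK η x| ≤ 4 * η := by
  unfold KK
  have h := intervalIntegral.norm_integral_le_of_norm_le_const (a := -(2 * η)) (b := 2 * η) (C := 1)
    (f := fun β => tr η β * Real.cos (2 * Real.pi * β * x)) (fun β _ => by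
      rw [Real.norm_eq_abs, abs_mul, abs_of_nonneg (tr_nonneg η β)]
      exact mul_le_one₀ (tr_le_one η β) (abs_nonneg _) (Real.abs_cos_le_one _))
  rw [Real.norm_eq_abs, one_mul, show 2 * η - -(2 * η) = 4 * η by ring,
    abs_of_pos (by positivity : 0 < 4 * η)] at h
  exact h

lemma KK_lip {η : ℝ} (hη : 0 < η) (x y : ℝ) :
    |KK η x - KK η y| ≤ 16 * Real.pi * η ^ 2 * |x - y| := by
  unfold KK
  rw [← intervalIntegral.integral_sub ((fc η x).intervalIntegrable _ _)
    ((fc η y).intervalIntegrable _ _)]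
  have h := intervalIntegral.norm_integral_le_of_norm_le_const (a := -(2 * η)) (b := 2 * η)
    (C := 4 * Real.pi * η * |x - y|)
    (f := fun β => tr η β * Real.cos (2 * Real.pi * β * x) -
      tr η β * Real.cos (2 * Real.pi * β * y)) (fun β hβ => by
      rw [Set.uIoc_of_le (by linarith)] at hβ
      rw [Real.norm_eq_abs, ← mul_sub, abs_mul, abs_of_nonneg (tr_nonneg η β)]
      have hb : |β| ≤ 2 * η := abs_le.2 ⟨hβ.1.le, hβ.2⟩
      have h1 := Real.abs_cos_sub_cos_le (2 * Real.pi * β * x) (2 * Real.pi * β * y)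
      rw [show 2 * Real.pi * β * x - 2 * Real.pi * β * y = 2 * Real.pi * (β * (x - y)) by ring,
        abs_mul, abs_mul β, abs_of_pos (by positivity : (0 : ℝ) < 2 * Real.pi)] at h1
      calc tr η β * |Real.cos (2 * Real.pi * β * x) - Real.cos (2 * Real.pi * β * y)| ≤
          1 * (2 * Real.pi * (|β| * |x - y|)) :=
            mul_le_mul (tr_le_one η β) h1 (abs_nonneg _) zero_le_one
        _ ≤ 1 * (2 * Real.pi * (2 * η * |x - y|)) := by gcongr
        _ = _ := by ring)
  rw [Real.norm_eq_abs, show 2 * η - -(2 * η) = 4 * η by ring,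
    abs_of_pos (by positivity : 0 < 4 * η)] at h
  refine h.trans (le_of_eq ?_)
  ring

lemma KK_half {η : ℝ} (x : ℝ) :
    KK η x = 2 * ∫ β in (0 : ℝ)..(2 * η), tr η β * Real.cos (2 * Real.pi * β * x) := by
  unfold KK
  rw [← intervalIntegral.integral_add_adjacent_intervals
    ((fc η x).intervalIntegrable (-(2 * η)) 0) ((fc η x).intervalIntegrable 0 (2 * η))]
  have h := intervalIntegral.integral_comp_neg (a := 0) (b := 2 * η)
    (fun β => tr η β * Real.cos (2 * Real.pi * β * x))
  rw [neg_zero] at h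
  rw [← h]
  have e : (∫ β in (0 : ℝ)..(2 * η), tr η (-β) * Real.cos (2 * Real.pi * (-β) * x)) =
      ∫ β in (0 : ℝ)..(2 * η), tr η β * Real.cos (2 * Real.pi * β * x) := by
    refine intervalIntegral.integral_congr fun β _ => ?_
    rw [tr_neg, show 2 * Real.pi * (-β) * x = -(2 * Real.pi * β * x) by ring, Real.cos_neg]
  rw [e]
  ring

lemma KK_neg (η x : ℝ) : KK η (-x) = KK η x := by
  unfold KK
  refine intervalIntegral.integral_congr fun β _ => ?_
  rw [show 2 * Real.pi * β * (-x) = -(2 * Real.pi * β * x) by ring, Real.cos_neg]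

lemma KK_eq {η x : ℝ} (hη : 0 < η) (hx : x ≠ 0) :
    KK η x = (Real.cos (2 * Real.pi * x * η) - Real.cos (2 * Real.pi * x * (2 * η))) /
      (2 * Real.pi ^ 2 * η * x ^ 2) := by
  set om : ℝ := 2 * Real.pi * x with hom
  have hom0 : om ≠ 0 := by
    rw [hom]
    have := Real.pi_pos
    positivity
  have hs : ∀ β : ℝ, HasDerivAt (fun β => Real.sin (om * β)) (Real.cos (om * β) * om) β := by
    intro β
    have h1 : HasDerivAt (fun β : ℝ => om * β) om β := by
      simpa using (hasDerivAt_id β).const_mul om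
    exact h1.sin
  have hc : ∀ β : ℝ, HasDerivAt (fun β => Real.cos (om * β)) (-Real.sin (om * β) * om) β := by
    intro β
    have h1 : HasDerivAt (fun β : ℝ => om * β) om β := by
      simpa using (hasDerivAt_id β).const_mul om
    exact h1.cos
  have I1 : ∫ β in (0 : ℝ)..η, tr η β * Real.cos (2 * Real.pi * β * x) = Real.sin (om * η) / om := by
    have e : (∫ β in (0 : ℝ)..η, tr η β * Real.cos (2 * Real.pi * β * x)) =
        ∫ β in (0 : ℝ)..η, Real.cos (om * β) := by
      refine intervalIntegral.integral_congr fun β hβ => ?_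
      rw [Set.uIcc_of_le hη.le] at hβ
      rw [tr_one hη (by rw [abs_of_nonneg hβ.1]; exact hβ.2), one_mul]
      congr 1
      rw [hom]; ring
    rw [e, intervalIntegral.integral_eq_sub_of_hasDerivAt (f := fun β => Real.sin (om * β) / om)]
    · simp
    · intro β _
      have := (hs β).div_const om
      rwa [mul_div_assoc, div_self hom0, mul_one] at this
    · exact (by fun_prop : Continuous (fun β : ℝ => Real.cos (om * β))).intervalIntegrable _ _
  have I2 : ∫ β in η..(2 * η), tr η β * Real.cos (2 * Real.pi * β * x) =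
      -Real.cos (om * (2 * η)) / (η * om ^ 2) - Real.sin (om * η) / om +
        Real.cos (om * η) / (η * om ^ 2) := by
    have e : (∫ β in η..(2 * η), tr η β * Real.cos (2 * Real.pi * β * x)) =
        ∫ β in η..(2 * η), (2 - β / η) * Real.cos (om * β) := by
      refine intervalIntegral.integral_congr fun β hβ => ?_
      rw [Set.uIcc_of_le (by linarith)] at hβ
      rw [tr_mid hη hβ.1 hβ.2]
      congr 2
      rw [hom]; ring
    rw [e, intervalIntegral.integral_eq_sub_of_hasDerivAt
      (f := fun β => (2 - β / η) * (Real.sin (om * β) / om) - Real.cos (om * β) / (η * om ^ 2))]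
    · have : (2 - 2 * η / η) = 0 := by field_simp; ring
      rw [this]
      have : (2 - η / η) = 1 := by rw [div_self hη.ne']; norm_num
      rw [this]
      ring
    · intro β _
      have h1 : HasDerivAt (fun β : ℝ => 2 - β / η) (-(1 / η)) β := by
        have := ((hasDerivAt_id β).div_const η).const_sub 2
        simpa using this
      have h2 := (h1.mul ((hs β).div_const om)).sub ((hc β).div_const (η * om ^ 2))
      have h3 : HasDerivAt (fun β => (2 - β / η) * (Real.sin (om * β) / om) -
          Real.cos (om * β) / (η * om ^ 2)) (-(1 / η) * (Real.sin (om * β) / om) +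
          (2 - β / η) * (Real.cos (om * β) * om / om) -
          -Real.sin (om * β) * om / (η * om ^ 2)) β := h2
      refine h3.congr_deriv ?_
      field_simp
      ring
    · exact (by fun_prop : Continuous (fun β : ℝ => (2 - β / η) *
        Real.cos (om * β))).intervalIntegrable _ _
  rw [KK_half, ← intervalIntegral.integral_add_adjacent_intervals
    ((fc η x).intervalIntegrable 0 η) ((fc η x).intervalIntegrable η (2 * η)), I1, I2]
  have hpi := Real.pi_pos
  have e : (2 : ℝ) * Real.pi ^ 2 * η * x ^ 2 = η * om ^ 2 / 2 := by rw [hom]; ring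
  rw [e]
  field_simp
  ring

lemma KK_dec {η x : ℝ} (hη : 0 < η) (hx : x ≠ 0) : |KK η x| ≤ 1 / (9 * η * x ^ 2) := by
  rw [KK_eq hη hx, abs_div]
  have hx2 : 0 < x ^ 2 := by positivity
  have hpi : (9 : ℝ) ≤ Real.pi ^ 2 := by nlinarith [Real.pi_gt_three]
  have hpos : (0 : ℝ) < 2 * Real.pi ^ 2 * η * x ^ 2 := by positivity
  rw [abs_of_pos hpos, div_le_div_iff₀ hpos (by positivity), one_mul]
  have h1 : |Real.cos (2 * Real.pi * x * η) - Real.cos (2 * Real.pi * x * (2 * η))| ≤ 2 := by
    have := abs_sub (Real.cos (2 * Real.pi * x * η)) (Real.cos (2 * Real.pi * x * (2 * η)))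
    linarith [Real.abs_cos_le_one (2 * Real.pi * x * η),
      Real.abs_cos_le_one (2 * Real.pi * x * (2 * η))]
  calc |Real.cos (2 * Real.pi * x * η) - Real.cos (2 * Real.pi * x * (2 * η))| * (9 * η * x ^ 2) ≤
      2 * (Real.pi ^ 2 * η * x ^ 2) := by gcongr
    _ = _ := by ring

lemma KK_cont {η : ℝ} (hη : 0 < η) : Continuous (KK η) := by
  refine (LipschitzWith.of_dist_le_mul (K := ⟨16 * Real.pi * η ^ 2, by positivity⟩) ?_).continuous
  intro x y
  rw [Real.dist_eq, Real.dist_eq]
  exact KK_lip hη x y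

lemma KK_dom {η : ℝ} (hη : 0 < η) (x : ℝ) :
    ‖KK η x‖ ≤ (4 * η + 1 / (9 * η)) * (1 + x ^ 2)⁻¹ := by
  rw [Real.norm_eq_abs, ← div_eq_mul_inv, le_div_iff₀ (by positivity), mul_add, mul_one]
  refine add_le_add (KK_abs hη x) ?_
  by_cases hx : x = 0
  · rw [hx]; simp; positivity
  · have h := KK_dec hη hx
    have hx2 : 0 < x ^ 2 := by positivity
    calc |KK η x| * x ^ 2 ≤ 1 / (9 * η * x ^ 2) * x ^ 2 := by gcongr
      _ = _ := by field_simp

lemma KK_int {η : ℝ} (hη : 0 < η) : Integrable (KK η) := by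
  refine (integrable_inv_one_add_sq.const_mul (4 * η + 1 / (9 * η))).mono'
    (KK_cont hη).aestronglyMeasurable (ae_of_all _ fun x => KK_dom hη x)

lemma supp {η : ℝ} (hη : 0 < η) (g : ℝ → ℂ) :
    ∫ β in (-(2 * η))..(2 * η), (tr η β : ℂ) * g β = ∫ β, (tr η β : ℂ) * g β := by
  refine intervalIntegral.integral_eq_integral_of_support_subset ?_
  intro β hβ
  rw [Function.mem_support] at hβ
  have h : |β| < 2 * η := by
    by_contra h
    rw [not_lt] at h
    apply hβ
    rw [tr_zero hη h]
    simp
  have := abs_lt.1 h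
  exact ⟨this.1, this.2.le⟩

lemma KK_four {η : ℝ} (hη : 0 < η) (x : ℝ) :
    𝓕 (fun β : ℝ => (tr η β : ℂ)) x = (KK η x : ℂ) := by
  rw [Real.fourier_real_eq_integral_exp_smul]
  have e : (fun v : ℝ => Complex.exp (↑(-2 * Real.pi * v * x) * Complex.I) • (tr η v : ℂ)) =
      fun v : ℝ => (tr η v : ℂ) * Complex.exp (↑(-2 * Real.pi * v * x) * Complex.I) := by
    funext v
    rw [smul_eq_mul, mul_comm]
  rw [e, ← supp hη]
  have odd : ∫ β in (-(2 * η))..(2 * η), tr η β * Real.sin (2 * Real.pi * β * x) = 0 := by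
    have h := intervalIntegral.integral_comp_neg (a := -(2 * η)) (b := 2 * η)
      (fun β => tr η β * Real.sin (2 * Real.pi * β * x))
    rw [neg_neg] at h
    have e3 : (∫ β in (-(2 * η))..(2 * η), tr η (-β) * Real.sin (2 * Real.pi * (-β) * x)) =
        -∫ β in (-(2 * η))..(2 * η), tr η β * Real.sin (2 * Real.pi * β * x) := by
      rw [← intervalIntegral.integral_neg]
      refine intervalIntegral.integral_congr fun β _ => ?_
      rw [tr_neg, show 2 * Real.pi * (-β) * x = -(2 * Real.pi * β * x) by ring, Real.sin_neg]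
      ring
    rw [e3] at h
    linarith
  have e2 : (fun v : ℝ => (tr η v : ℂ) * Complex.exp (↑(-2 * Real.pi * v * x) * Complex.I)) =
      fun v : ℝ => ((tr η v * Real.cos (2 * Real.pi * v * x) : ℝ) : ℂ) -
        Complex.I * ((tr η v * Real.sin (2 * Real.pi * v * x) : ℝ) : ℂ) := by
    funext v
    rw [show -2 * Real.pi * v * x = -(2 * Real.pi * v * x) by ring, Complex.exp_mul_I,
      ← Complex.ofReal_cos, ← Complex.ofReal_sin, Real.cos_neg, Real.sin_neg]
    push_cast
    ring
  rw [e2, intervalIntegral.integral_sub]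
  · rw [intervalIntegral.integral_const_mul, intervalIntegral.integral_ofReal,
      intervalIntegral.integral_ofReal, odd]
    simp [KK]
  · exact (Complex.continuous_ofReal.comp (fc η x)).intervalIntegrable _ _
  · refine Continuous.intervalIntegrable ?_ _ _
    exact continuous_const.mul (Complex.continuous_ofReal.comp ((tr_cont η).mul (by fun_prop)))

lemma KK_one {η : ℝ} (hη : 0 < η) : ∫ x, KK η x = 1 := by
  have hc : Continuous (fun β : ℝ => (tr η β : ℂ)) := Complex.continuous_ofReal.comp (tr_cont η)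
  have hcs : HasCompactSupport (fun β : ℝ => (tr η β : ℂ)) := by
    refine HasCompactSupport.of_support_subset_isCompact (isCompact_Icc (a := -(2 * η)) (b := 2 * η)) ?_
    intro β hβ
    rw [Function.mem_support] at hβ
    have h : |β| < 2 * η := by
      by_contra h
      rw [not_lt] at h
      apply hβ
      rw [tr_zero hη h]
      simp
    have := abs_lt.1 h
    exact ⟨this.1.le, this.2.le⟩
  have hi : Integrable (fun β : ℝ => (tr η β : ℂ)) := hc.integrable_of_hasCompactSupport hcs
  have hF : 𝓕 (fun β : ℝ => (tr η β : ℂ)) = fun x => (KK η x : ℂ) := funext (KK_four hη)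
  have hi2 : Integrable (𝓕 (fun β : ℝ => (tr η β : ℂ))) := by
    rw [hF]
    exact (KK_int hη).ofReal
  have h := congrFun (hc.fourierInv_fourier_eq hi hi2) 0
  rw [hF, Real.fourierInv_eq'] at h
  simp only [inner_zero_right, mul_zero, Complex.ofReal_zero, zero_mul, Complex.exp_zero,
    one_smul] at h
  rw [integral_complex_ofReal, tr_one hη (by rw [abs_zero]; exact hη.le)] at h
  exact_mod_cast h

/-- the primitive -/
noncomputable def J (η X : ℝ) : ℝ := ∫ x in (0 : ℝ)..X, KK η x

lemma J_neg {η : ℝ} (X : ℝ) : J η (-X) = -J η X := by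
  unfold J
  have h := intervalIntegral.integral_comp_neg (a := 0) (b := X) (KK η)
  rw [neg_zero] at h
  have e : (∫ x in (0 : ℝ)..X, KK η (-x)) = ∫ x in (0 : ℝ)..X, KK η x :=
    intervalIntegral.integral_congr fun x _ => KK_neg η x
  rw [e] at h
  rw [h, intervalIntegral.integral_symm (-X) 0]

lemma J_sub {η : ℝ} (hη : 0 < η) (a b : ℝ) : ∫ x in a..b, KK η x = J η b - J η a := by
  unfold J
  have hi : ∀ a b : ℝ, IntervalIntegrable (KK η) volume a b := fun a b =>
    (KK_cont hη).intervalIntegrable a b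
  rw [← intervalIntegral.integral_add_adjacent_intervals (hi 0 a) (hi a b)]
  ring

lemma J_diff {η X Y : ℝ} (hη : 0 < η) (hX : 0 < X) (h : X ≤ Y) :
    |J η Y - J η X| ≤ 1 / (9 * η * X) := by
  rw [← J_sub hη]
  have hi : ∀ a b : ℝ, IntervalIntegrable (KK η) volume a b := fun a b =>
    (KK_cont hη).intervalIntegrable a b
  have h1 : ‖∫ x in X..Y, KK η x‖ ≤ ∫ x in X..Y, 1 / (9 * η) * (1 / x ^ 2) := by
    refine intervalIntegral.norm_integral_le_of_norm_le h ?_ ?_
    · refine ae_of_all _ fun x hx => ?_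
      have hx0 : 0 < x := lt_trans hX hx.1
      rw [Real.norm_eq_abs]
      refine (KK_dec hη hx0.ne').trans (le_of_eq ?_)
      field_simp
    · refine ContinuousOn.intervalIntegrable ?_
      rw [Set.uIcc_of_le h]
      refine ContinuousOn.mul continuousOn_const (ContinuousOn.div continuousOn_const
        (by fun_prop) ?_)
      intro x hx
      have : 0 < x := lt_of_lt_of_le hX hx.1
      positivity
  have h2 : ∫ x in X..Y, 1 / (9 * η) * (1 / x ^ 2) = 1 / (9 * η) * (1 / X - 1 / Y) := by
    rw [intervalIntegral.integral_eq_sub_of_hasDerivAt (f := fun x => 1 / (9 * η) * (-(1 / x)))]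
    · ring
    · intro x hx
      rw [Set.uIcc_of_le h] at hx
      have hx0 : x ≠ 0 := (lt_of_lt_of_le hX hx.1).ne'
      have h3 := ((hasDerivAt_inv hx0).neg).const_mul (1 / (9 * η))
      rw [neg_neg] at h3
      simpa [one_div] using h3
    · refine ContinuousOn.intervalIntegrable ?_
      rw [Set.uIcc_of_le h]
      refine ContinuousOn.mul continuousOn_const (ContinuousOn.div continuousOn_const
        (by fun_prop) ?_)
      intro x hx
      have : 0 < x := lt_of_lt_of_le hX hx.1
      positivity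
  rw [h2, Real.norm_eq_abs] at h1
  refine h1.trans ?_
  have hY : 0 < Y := lt_of_lt_of_le hX h
  have h4 : 1 / (9 * η) * (1 / X - 1 / Y) ≤ 1 / (9 * η) * (1 / X) := by
    have : 0 ≤ 1 / Y := by positivity
    have h5 : 0 ≤ 1 / (9 * η) := by positivity
    exact mul_le_mul_of_nonneg_left (by linarith) h5
  refine h4.trans (le_of_eq ?_)
  field_simp

lemma J_lim {η : ℝ} (hη : 0 < η) : Tendsto (fun X => J η X) atTop (nhds (1 / 2)) := by
  have h := intervalIntegral_tendsto_integral (KK_int hη) tendsto_neg_atTop_atBot tendsto_id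
  rw [KK_one hη] at h
  have h2 := h.const_mul (1 / 2)
  rw [mul_one] at h2
  refine h2.congr fun X => ?_
  simp only [id]
  rw [J_sub hη, J_neg]
  ring

lemma J_half {η X : ℝ} (hη : 0 < η) (hX : 0 < X) : |J η X - 1 / 2| ≤ 1 / (9 * η * X) := by
  have h1 : Tendsto (fun Y => |J η Y - J η X|) atTop (nhds |1 / 2 - J η X|) :=
    ((J_lim hη).sub_const _).abs
  have h2 : |1 / 2 - J η X| ≤ 1 / (9 * η * X) := by
    refine le_of_tendsto h1 ?_
    filter_upwards [eventually_ge_atTop X] with Y hY
    exact J_diff hη hX hY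
  rw [abs_sub_comm]
  exact h2

lemma J_half' {η X : ℝ} (hη : 0 < η) (hX : X < 0) : |J η X + 1 / 2| ≤ 1 / (9 * η * (-X)) := by
  have h := J_half hη (X := -X) (by linarith)
  rw [J_neg] at h
  rwa [show J η X + 1 / 2 = -(-J η X - 1 / 2) by ring, abs_neg]

lemma J_bd {η : ℝ} (hη : 0 < η) (X : ℝ) : |J η X| ≤ 4 := by
  have key : ∀ X : ℝ, 0 ≤ X → |J η X| ≤ 4 := by
    intro X hX
    rcases le_total X (1 / η) with h | h
    · unfold J
      have h1 := intervalIntegral.norm_integral_le_of_norm_le_const (a := 0) (b := X) (C := 4 * η)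
        (f := KK η) (fun x _ => KK_abs hη x)
      rw [Real.norm_eq_abs, sub_zero, abs_of_nonneg hX] at h1
      refine h1.trans ?_
      calc 4 * η * X ≤ 4 * η * (1 / η) := by gcongr
        _ = 4 := by field_simp
    · have hX0 : 0 < X := lt_of_lt_of_le (by positivity) h
      have h1 := abs_le.1 (J_half hη hX0)
      have h2 : 1 / (9 * η * X) ≤ 1 := by
        rw [div_le_one (by positivity)]
        rw [div_le_iff₀ hη] at h
        nlinarith
      rw [abs_le]
      constructor <;> linarith [h1.1, h1.2]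
  rcases le_total 0 X with h | h
  · exact key X h
  · have := key (-X) (by linarith)
    rwa [J_neg, abs_neg] at this

theorem ker : S_KER := by
  refine ⟨100, by norm_num, ?_⟩
  intro η hη hη1
  refine ⟨KK_abs hη, ?_, ?_⟩
  · intro x y
    refine (KK_lip hη x y).trans ?_
    have hpi : Real.pi ≤ 4 := Real.pi_le_four
    have h0 : 0 ≤ η ^ 2 * |x - y| := by positivity
    have h1 : 16 * Real.pi ≤ 100 := by linarith
    calc 16 * Real.pi * η ^ 2 * |x - y| = 16 * Real.pi * (η ^ 2 * |x - y|) := by ring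
      _ ≤ 100 * (η ^ 2 * |x - y|) := by gcongr
      _ = _ := by ring
  · intro lo hi x Δ hlh hΔ
    have e : ∫ s in lo..hi, KK η (x - s) = J η (x - lo) - J η (x - hi) := by
      rw [intervalIntegral.integral_comp_sub_left (KK η) x, J_sub hη]
    rw [e]
    have hΔ1 : ∀ Y : ℝ, Δ ≤ Y → 1 / (9 * η * Y) ≤ 1 / (9 * η * Δ) := by
      intro Y hY
      have : 0 < Y := lt_of_lt_of_le hΔ hY
      exact one_div_le_one_div_of_le (by positivity) (by gcongr)
    have hfin : 1 / (9 * η * Δ) + 1 / (9 * η * Δ) ≤ 100 / (η * Δ) := by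
      have h1 : 1 / (9 * η * Δ) = 1 / 9 * (1 / (η * Δ)) := by field_simp
      have h2 : 100 / (η * Δ) = 100 * (1 / (η * Δ)) := by field_simp
      have h3 : 0 ≤ 1 / (η * Δ) := by positivity
      rw [h1, h2]
      linarith
    refine ⟨?_, ?_, ?_⟩
    · have h1 := abs_le.1 (J_bd hη (x - lo))
      have h2 := abs_le.1 (J_bd hη (x - hi))
      rw [abs_le]
      constructor <;> linarith [h1.1, h1.2, h2.1, h2.2]
    · intro h1 h2
      have a1 := (J_half hη (X := x - lo) (by linarith)).trans (hΔ1 _ (by linarith))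
      have a2 := (J_half' hη (X := x - hi) (by linarith)).trans (hΔ1 _ (by linarith))
      rw [abs_le] at a1 a2 ⊢
      constructor <;> linarith [a1.1, a1.2, a2.1, a2.2]
    · rintro (h1 | h1)
      · have a1 := (J_half' hη (X := x - lo) (by linarith)).trans (hΔ1 _ (by linarith))
        have a2 := (J_half' hη (X := x - hi) (by linarith)).trans (hΔ1 _ (by linarith))
        rw [abs_le] at a1 a2 ⊢
        constructor <;> linarith [a1.1, a1.2, a2.1, a2.2]
      · have a1 := (J_half hη (X := x - lo) (by linarith)).trans (hΔ1 _ (by linarith))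
        have a2 := (J_half hη (X := x - hi) (by linarith)).trans (hΔ1 _ (by linarith))
        rw [abs_le] at a1 a2 ⊢
        constructor <;> linarith [a1.1, a1.2, a2.1, a2.2]

end Ker

end Pool.Agent.D0H98.TW
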